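import Pool.Agent.H72.HRA.Targets

/-!
Module VALA (and VAL): values of the derivatives of the basis polynomials.
-/

set_option autoImplicit false

open MvPolynomial Module

namespace Pool.Agent.H33.HRA

open Pool.Agent.H72.HR Pool.Agent.H72.HRA
open Pool.Agent.H72.BF (RP Gf)

noncomputable section

/-- equality of elements of a sum type is decided lawfully -/
theorem lawfulSum {α β : Type} [DecidableEq α] [DecidableEq β] : LawfulBEq (α ⊕ β) where
  rfl := by
    intro x
    rcases x with a | b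
    · exact beq_self_eq_true a
    · exact beq_self_eq_true b
  eq_of_beq := by
    intro x y h
    rcases x with a | a <;> rcases y with b | b
    · exact congrArg Sum.inl (eq_of_beq (α := α) h)
    · exact absurd (show (false : Bool) = true from h) (by decide)
    · exact absurd (show (false : Bool) = true from h) (by decide)
    · exact congrArg Sum.inr (eq_of_beq (α := β) h)

section
variable {A : Type} [CommRing A] [Algebra ℂ A] (D : Derivation ℂ A A) {ι : Type} [DecidableEq ι]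

theorem der_prod (f b : ι → A) (s : Finset ι) (h : ∀ i ∈ s, D (f i) = b i * f i) :
    D (∏ i ∈ s, f i) = (∑ i ∈ s, b i) * ∏ i ∈ s, f i := by
  induction s using Finset.induction_on with
  | empty => simp
  | insert a s ha ih =>
    rw [Finset.prod_insert ha, Finset.sum_insert ha, Derivation.leibniz,
      h a (Finset.mem_insert_self a s), ih fun i hi => h i (Finset.mem_insert_of_mem hi),
      smul_eq_mul, smul_eq_mul]
    ring

end

section
variable {ρ τ : Type} [Fintype ρ] [Fintype τ] [DecidableEq ρ] [DecidableEq τ]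

/-- products -/
def BB (P : ρ → Polynomial ℂ) (e : τ → ℕ) : MvPolynomial (ρ ⊕ τ) ℂ :=
  (∏ i, Polynomial.aeval (X (Sum.inl i) : MvPolynomial (ρ ⊕ τ) ℂ) (P i)) *
    ∏ a, X (Sum.inr a) ^ e a

theorem dv_inl (v : ρ ⊕ τ → ℂ) (i : ρ) (P : Polynomial ℂ) :
    dv kap v (Polynomial.aeval (X (Sum.inl i) : MvPolynomial (ρ ⊕ τ) ℂ) P) =
      C (v (Sum.inl i)) * Polynomial.aeval (X (Sum.inl i) : MvPolynomial (ρ ⊕ τ) ℂ)
        (Polynomial.derivative P) := by
  rw [Derivation.map_aeval]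
  unfold dv
  rw [mkDerivation_X]
  simp only [kap, Sum.elim_inl, Bool.false_eq_true, if_false, smul_eq_mul]
  ring

theorem dv_inr (v : ρ ⊕ τ → ℂ) (a : τ) (m : ℕ) :
    dv kap v ((X (Sum.inr a) : MvPolynomial (ρ ⊕ τ) ℂ) ^ m) =
      C (v (Sum.inr a) * m) * (X (Sum.inr a) : MvPolynomial (ρ ⊕ τ) ℂ) ^ m := by
  rw [Derivation.leibniz_pow]
  unfold dv
  rw [mkDerivation_X]
  simp only [kap, Sum.elim_inr, if_true, smul_eq_mul, nsmul_eq_mul]
  rcases m with _ | m
  · simp
  · rw [Nat.add_sub_cancel, C_mul, pow_succ]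
    have : (C ((m + 1 : ℕ) : ℂ) : MvPolynomial (ρ ⊕ τ) ℂ) = ((m + 1 : ℕ) : _) := by
      rw [map_natCast]
    rw [this]
    ring

theorem dv_tor (v : ρ ⊕ τ → ℂ) (e : τ → ℕ) :
    dv kap v (∏ a, (X (Sum.inr a) : MvPolynomial (ρ ⊕ τ) ℂ) ^ e a) =
      C (∑ a, v (Sum.inr a) * e a) * ∏ a, (X (Sum.inr a) : MvPolynomial (ρ ⊕ τ) ℂ) ^ e a := by
  rw [der_prod (dv kap v) _ (fun a => C (v (Sum.inr a) * e a)) _ fun a _ => dv_inr v a (e a),
    map_sum]

/-- a derivative in a multiplicative direction -/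
theorem dv_BB0 (v : ρ ⊕ τ → ℂ) (hv : ∀ i, v (Sum.inl i) = 0) (P : ρ → Polynomial ℂ) (e : τ → ℕ) :
    dv kap v (BB P e) = C (∑ a, v (Sum.inr a) * e a) * BB P e := by
  unfold BB
  rw [Derivation.leibniz, dv_tor, der_prod (dv kap v) _ (fun _ => 0) _ fun i _ => by
    rw [dv_inl, hv, C_0, zero_mul, zero_mul]]
  rw [Finset.sum_const_zero, zero_mul, smul_zero, add_zero, smul_eq_mul]
  ring

/-- a derivative in an additive direction -/
theorem dv_BB1 (v : ρ ⊕ τ → ℂ) (i₀ : ρ) (hv : ∀ i, v (Sum.inl i) = if i = i₀ then 1 else 0)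
    (P P' : ρ → Polynomial ℂ) (e : τ → ℕ) (hP : ∀ i, i ≠ i₀ → P' i = P i)
    (hP0 : P' i₀ = Polynomial.derivative (P i₀) +
      Polynomial.C (∑ a, v (Sum.inr a) * e a) * P i₀) :
    dv kap v (BB P e) = BB P' e := by
  have e1 : ∀ R : ρ → Polynomial ℂ,
      (∏ i, Polynomial.aeval (X (Sum.inl i) : MvPolynomial (ρ ⊕ τ) ℂ) (R i)) =
      Polynomial.aeval (X (Sum.inl i₀) : MvPolynomial (ρ ⊕ τ) ℂ) (R i₀) *
        ∏ i ∈ Finset.univ.erase i₀, Polynomial.aeval (X (Sum.inl i) : MvPolynomial (ρ ⊕ τ) ℂ) (R i) :=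
    fun R => (Finset.mul_prod_erase Finset.univ _ (Finset.mem_univ i₀)).symm
  have e2 : (∏ i ∈ Finset.univ.erase i₀,
      Polynomial.aeval (X (Sum.inl i) : MvPolynomial (ρ ⊕ τ) ℂ) (P' i)) =
      ∏ i ∈ Finset.univ.erase i₀,
        Polynomial.aeval (X (Sum.inl i) : MvPolynomial (ρ ⊕ τ) ℂ) (P i) := by
    refine Finset.prod_congr rfl fun i hi => ?_
    rw [hP i (Finset.ne_of_mem_erase hi)]
  have e3 : dv kap v (∏ i ∈ Finset.univ.erase i₀,
        Polynomial.aeval (X (Sum.inl i) : MvPolynomial (ρ ⊕ τ) ℂ) (P i)) = 0 := by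
    rw [der_prod (dv kap v) _ (fun _ => 0) _ fun i hi => by
      rw [dv_inl, hv, if_neg (Finset.ne_of_mem_erase hi), C_0, zero_mul, zero_mul]]
    rw [Finset.sum_const_zero, zero_mul]
  unfold BB
  rw [Derivation.leibniz, dv_tor, e1 P, e1 P', e2, Derivation.leibniz, e3, dv_inl, hv, if_pos rfl,
    hP0]
  simp only [smul_eq_mul, mul_zero, zero_add, C_1, one_mul, map_add, map_mul, Polynomial.aeval_C,
    MvPolynomial.algebraMap_eq]
  ring

theorem om_tor (e : τ → ℕ) {c : ℕ} (ν : Fin c → τ) (x : Fin c → ℂ) :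
    ∑ a, (∑ l, (Pi.single (Sum.inr (ν l)) (x l) : ρ ⊕ τ → ℂ)) (Sum.inr a) * (e a : ℂ) =
      ∑ l, x l * ((e (ν l) : ℕ) : ℂ) := by
  simp only [Finset.sum_apply, Finset.sum_mul]
  rw [Finset.sum_comm]
  refine Finset.sum_congr rfl fun l _ => ?_
  rw [Finset.sum_eq_single (ν l)]
  · rw [Pi.single_eq_same]
  · intro a _ ha
    rw [Pi.single_eq_of_ne (fun h => ha (Sum.inr.inj h)), zero_mul]
  · intro h
    exact absurd (Finset.mem_univ _) h

theorem om_sum0 {c : ℕ} (ν : Fin c → τ) (x : Fin c → ℂ) (i : ρ) :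
    (∑ l, (Pi.single (Sum.inr (ν l)) (x l) : ρ ⊕ τ → ℂ)) (Sum.inl i) = 0 := by
  rw [Finset.sum_apply]
  refine Finset.sum_eq_zero fun l _ => ?_
  exact Pi.single_eq_of_ne (fun h => by cases h) _

/-- iterated derivatives -/
theorem fold_BB {c : ℕ} (ν : Fin c → τ) (k : ρ → Fin c → ℂ) (E : Fin c → τ → ℂ)
    (P : ρ → Polynomial ℂ) (e : τ → ℕ) (l : List (ρ ⊕ τ)) :
    l.foldr (fun a f => dv kap (omC ν k E a) f) (BB P e) =
      C (∏ a, ((e a : ℂ) - ∑ l, E l a * ((e (ν l) : ℕ) : ℂ)) ^ l.count (Sum.inr a)) *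
        BB (fun i => Gf 1 (-(∑ l, k i l * ((e (ν l) : ℕ) : ℂ))) (P i) (l.count (Sum.inl i))) e := by
  have := lawfulSum (α := ρ) (β := τ)
  induction l with
  | nil =>
    simp only [List.foldr_nil, List.count_nil, pow_zero, Finset.prod_const_one, C_1, one_mul]
    rfl
  | cons b l ih =>
    rw [List.foldr_cons, ih, Derivation.leibniz]
    have hC : ∀ (v : ρ ⊕ τ → ℂ) (z : ℂ), dv kap v (C z) = 0 := fun v z => by
      have := (dv kap v).map_algebraMap z
      rwa [MvPolynomial.algebraMap_eq] at this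
    rw [hC, smul_zero, add_zero, smul_eq_mul]
    rcases b with i₀ | a₀
    · have hs : ∑ a, omC ν k E (Sum.inl i₀) (Sum.inr a) * (e a : ℂ) =
          -(∑ l, k i₀ l * ((e (ν l) : ℕ) : ℂ)) := by
        have : ∀ a, omC ν k E (Sum.inl i₀) (Sum.inr a) * (e a : ℂ) =
            -((∑ l, (Pi.single (Sum.inr (ν l)) (k i₀ l) : ρ ⊕ τ → ℂ)) (Sum.inr a) * (e a : ℂ)) := by
          intro a
          simp only [omC, Pi.sub_apply]
          rw [Pi.single_eq_of_ne (fun h => by cases h)]
          ring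
        rw [Finset.sum_congr rfl fun a _ => this a, Finset.sum_neg_distrib, om_tor]
      have hi : ∀ i, omC ν k E (Sum.inl i₀) (Sum.inl i) = if i = i₀ then 1 else 0 := by
        intro i
        simp only [omC, Pi.sub_apply]
        rw [om_sum0, sub_zero]
        by_cases h : i = i₀
        · subst h
          rw [Pi.single_eq_same, if_pos rfl]
        · rw [Pi.single_eq_of_ne (fun h' => h (Sum.inl.inj h')), if_neg h]
      have q1 : ∀ a : τ, List.count (Sum.inr a : ρ ⊕ τ) (Sum.inl i₀ :: l) =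
          List.count (Sum.inr a : ρ ⊕ τ) l := fun a => List.count_cons_of_ne (fun h => by cases h)
      simp only [q1]
      congr 1
      refine dv_BB1 _ i₀ hi _ _ e ?_ ?_
      · intro i hne
        beta_reduce
        rw [List.count_cons_of_ne (fun h => hne (Sum.inl.inj h).symm)]
      · beta_reduce
        rw [List.count_cons_self, hs]
        simp only [Gf, Polynomial.C_1, one_mul]
    · have hs : ∑ a, omC ν k E (Sum.inr a₀) (Sum.inr a) * (e a : ℂ) =
          (e a₀ : ℂ) - ∑ l, E l a₀ * ((e (ν l) : ℕ) : ℂ) := by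
        have : ∀ a, omC ν k E (Sum.inr a₀) (Sum.inr a) * (e a : ℂ) =
            (if a = a₀ then (e a : ℂ) else 0) -
            (∑ l, (Pi.single (Sum.inr (ν l)) (E l a₀) : ρ ⊕ τ → ℂ)) (Sum.inr a) * (e a : ℂ) := by
          intro a
          simp only [omC, Pi.sub_apply]
          by_cases h : a = a₀
          · subst h
            rw [Pi.single_eq_same, if_pos rfl]
            ring
          · rw [Pi.single_eq_of_ne (fun h' => h (Sum.inr.inj h')), if_neg h]
            ring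
        rw [Finset.sum_congr rfl fun a _ => this a, Finset.sum_sub_distrib, om_tor,
          Finset.sum_ite_eq' Finset.univ a₀, if_pos (Finset.mem_univ _)]
      have hi : ∀ i, omC ν k E (Sum.inr a₀) (Sum.inl i) = 0 := by
        intro i
        simp only [omC, Pi.sub_apply]
        rw [om_sum0, sub_zero, Pi.single_eq_of_ne (fun h => by cases h)]
      have q1 : ∀ i : ρ, List.count (Sum.inl i : ρ ⊕ τ) (Sum.inr a₀ :: l) =
          List.count (Sum.inl i : ρ ⊕ τ) l := fun i => List.count_cons_of_ne (fun h => by cases h)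
      simp only [q1]
      rw [dv_BB0 _ hi, hs, ← mul_assoc, ← C_mul]
      congr 1
      · congr 1
        rw [← Finset.mul_prod_erase Finset.univ _ (Finset.mem_univ a₀),
          ← Finset.mul_prod_erase Finset.univ (fun a => _ ^ List.count (Sum.inr a) (Sum.inr a₀ :: l))
            (Finset.mem_univ a₀), List.count_cons_self, pow_succ]
        have : ∀ a ∈ Finset.univ.erase a₀, ((e a : ℂ) - ∑ l, E l a * ((e (ν l) : ℕ) : ℂ)) ^
            List.count (Sum.inr a : ρ ⊕ τ) (Sum.inr a₀ :: l) =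
            ((e a : ℂ) - ∑ l, E l a * ((e (ν l) : ℕ) : ℂ)) ^ List.count (Sum.inr a : ρ ⊕ τ) l := by
          intro a ha
          rw [List.count_cons_of_ne (fun h => Finset.ne_of_mem_erase ha (Sum.inr.inj h).symm)]
        rw [Finset.prod_congr rfl this]
        ring

theorem eval_BB (P : ρ → Polynomial ℂ) (e : τ → ℕ) (g : ρ ⊕ τ → ℂ) :
    eval (pt kap g) (BB P e) = (∏ i, (P i).eval (g (Sum.inl i))) *
      Complex.exp (∑ a, (e a : ℂ) * g (Sum.inr a)) := by
  unfold BB
  rw [map_mul, map_prod, map_prod, Complex.exp_sum]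
  congr 1
  · refine Finset.prod_congr rfl fun i _ => ?_
    rw [← MvPolynomial.coe_aeval_eq_eval, RingHom.coe_coe, ← Polynomial.aeval_algHom_apply,
      aeval_X]
    simp [pt, kap]
  · refine Finset.prod_congr rfl fun a _ => ?_
    rw [map_pow, eval_X]
    simp only [pt, kap, Sum.elim_inr, if_true]
    rw [← Complex.exp_nat_mul]

end

/-- target VALA of the board -/
theorem pf_VALA : T_VALA := by
  intro ρ τ _ _ _ _ c h L T1 ν k E u l g
  have e1 : bas u = BB (rp u) (fun a => (u.2 a : ℕ)) := rfl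
  rw [e1, fold_BB, map_mul, eval_C, eval_BB]
  simp only [kmC, gaC]
  ring

theorem omC_cast {ρ τ : Type} [DecidableEq ρ] [DecidableEq τ] {c : ℕ} (ν : Fin c → τ)
    (k : ρ → Fin c → ℤ) (E : Fin c → τ → ℤ) (a : ρ ⊕ τ) :
    om ν k E a = omC ν (fun i l => (k i l : ℂ)) (fun l a => (E l a : ℂ)) a := by
  rcases a with i | a <;> rfl

/-- target VAL of the board -/
theorem pf_VAL : T_VAL := by
  intro ρ τ _ _ _ _ c h L T1 ν k E u l g
  have e1 := pf_VALA ρ τ c h L T1 ν (fun i l => (k i l : ℂ)) (fun l a => (E l a : ℂ)) u l g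
  have e2 : (fun (a : ρ ⊕ τ) (f : MvPolynomial (ρ ⊕ τ) ℂ) => dv kap (om ν k E a) f) =
      fun a f => dv kap (omC ν (fun i l => (k i l : ℂ)) (fun l a => (E l a : ℂ)) a) f := by
    funext a f
    rw [omC_cast]
  rw [e2, e1]
  have e3 : ∀ i, kmC ν (fun i l => (k i l : ℂ)) u i = ((km ν k u i : ℤ) : ℂ) := by
    intro i
    simp [kmC, km]
  have e4 : ∀ a, gaC ν (fun l a => (E l a : ℂ)) u a = ((ga ν E u a : ℤ) : ℂ) := by
    intro a
    simp [gaC, ga]
  simp only [e3, e4]

end

end Pool.Agent.H33.HRA
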